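import Pool.Agent.NH33.Ir.Defs

/-!
# CM fields whose odd Galois representation has only scalar endomorphisms: definitions
-/

set_option autoImplicit false

open NumberField

namespace Pool.Agent.NH33.Sf

open Pool.Agent.NH33.Ir

/-- The representation of the Galois group of `ℚ` on the odd functions on the embeddings of the CM
field `E` has only *scalar endomorphisms*: each Galois-invariant matrix `B` with rational entries
indexed by pairs of embeddings, which is odd in both indices, has the entry zero at all pairs of
embeddings which are neither equal nor complex conjugate. -/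
def HasScalarCommutant (E : Type) [Field E] [NumberField E] [IsCMField E] : Prop :=
  ∀ B : (E →+* AlgebraicClosure ℚ) → (E →+* AlgebraicClosure ℚ) → ℚ,
    (∀ σ, IsOddFun (B σ)) → (∀ τ, IsOddFun fun σ => B σ τ) →
    (∀ (g : AlgebraicClosure ℚ ≃ₐ[ℚ] AlgebraicClosure ℚ) (σ τ : E →+* AlgebraicClosure ℚ),
      B ((g : AlgebraicClosure ℚ →+* AlgebraicClosure ℚ).comp σ)
        ((g : AlgebraicClosure ℚ →+* AlgebraicClosure ℚ).comp τ) = B σ τ) →
    ∀ σ τ, Apart σ τ → B σ τ = 0

/-- Either the odd representation of `E` has only scalar endomorphisms, or one of three conditions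
holds which imply this: the Galois group contains all changes of sign; the degree of `E` is `2 ℓ`
with an odd prime number `ℓ` and `E` does not contain an imaginary quadratic field; the degree of `E`
is at least six, the Galois group acts triply transitively on the pairs of conjugate embeddings and
`E` does not contain an imaginary quadratic field. -/
def IsStrongField (E : Type) [Field E] [NumberField E] [IsCMField E] : Prop :=
  HasScalarCommutant E ∨ Y103.Sh.HasSignChanges E ∨
    (∃ ℓ : ℕ, ℓ.Prime ∧ ℓ ≠ 2 ∧ Module.finrank ℚ E = 2 * ℓ ∧ NoImaginaryQuadratic E) ∨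
    ∃ d : ℕ, 3 ≤ d ∧ Module.finrank ℚ E = 2 * d ∧ IsTriplyTransitive E ∧ NoImaginaryQuadratic E

/-- The numbers `α i` are *independent* at the place `ι`: no product of integral powers of them, with
exponents not all zero, has only conjugates of absolute value one at the place `ι`. -/
def IsIndependentAt {p : ℕ} [Fact p.Prime] (ι : AlgebraicClosure ℚ →+* PadicAlgCl p) {r : ℕ}
    {E : Type} [Field E] (α : Fin r → E) : Prop :=
  ∀ n : Fin r → ℤ, (∀ σ : E →+* AlgebraicClosure ℚ, ‖ι (σ (∏ i, α i ^ n i))‖ = 1) → n = 0

end Pool.Agent.NH33.Sf
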