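import Pool.Agent.NH33.Sf.Rel
import Pool.Agent.NH33.Ir.Main2
import Pool.Agent.NH33.Ir.Deg

/-!
# Varieties given by several numbers in the same field
-/

set_option autoImplicit false
set_option linter.unusedSectionVars false

open CategoryTheory AlgebraicGeometry NumberField
open scoped TensorProduct

universe u v

namespace Pool.Agent.NH33.Sf

open Pool.Agent.H914 Pool.Agent.H914.VarClass Pool.Agent.H914.VarClass.Obj
  Pool.Agent.H914.WeilCohomology Pool.Agent.H281R3.HT Pool.Agent.W552 Pool.Agent.W534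
  Pool.Agent.W458.RK Pool.Agent.W458.MF Pool.Agent.TH132.A Pool.Agent.W536.RR
  Pool.Agent.TH121.KT Pool.Agent.Y103.Hk Pool.Agent.Y103.Sh Pool.Agent.NH33.Ir

variable {k : Type u} [Field k] {𝒱 : VarClass k} {ops : CycleOps 𝒱}
  {W : WeilCohomology.{u, v} ops} {p : ℕ} [Fact p.Prime] {Φ : FrobSystem W p}
  {ι : Qb →+* PadicAlgCl p}
  {r : ℕ} {X : Fin r → 𝒱.Obj} {b e : Fin r → ℕ} {E : Type} [Field E]
  [NumberField E] [IsCMField E]
  {α : Fin r → E} {Z U : 𝒱.Obj}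

theorem scalar_of_strong (h : IsStrongField E) : HasScalarCommutant E := by
  rcases h with h | h | ⟨ℓ, hℓ, h0, h1, h2⟩ | ⟨d, hd, h1, h2, h3⟩
  · exact h
  · exact scalar_of_signs h
  · exact scalar_of_prime hℓ h0 h1 h2
  · exact scalar_of_triple h1 hd h2 h3

lemma slopes_of_foreign (hU : HasForeignEigenvalues Φ ι (fun _ : Fin 1 => E) U) (ν : W.K)
    (hν : Module.End.HasEigenvalue (W.map (Φ.Fr U)).toLinearMap ν) :
    IsSlopeProduct ι {L | IsStable L ∧ NotContained E L} ν ∨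
      HasSmallDegree (fun _ : Fin r => E) ν := by
  rcases hU ν hν with ⟨Q, hQ, hQν, hdeg⟩ | ⟨t, l, ht, hl, h⟩
  · exact Or.inr ⟨Q, hQ, hQν, fun _ => hdeg 0⟩
  left
  refine ⟨t, l, ht, hl, fun β hβ => ?_⟩
  rcases h β hβ with ⟨L, h1, h2, h3⟩ | ⟨Q, hQ, hQβ, hdeg⟩
  · exact ⟨L, ⟨h1, h2 0⟩, h3⟩
  · refine ⟨rootField Q, ⟨rootField_stable Q, ?_⟩, Q, hQ, ?_, hQβ⟩
    · obtain ⟨ℓ, hℓ, h1, h2⟩ := hdeg 0
      exact notContained_rootField hℓ h1 h2
    · intro h hh γ hγ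
      rw [hh γ (mem_rootField hQ hγ)]

/-- **The Tate conjecture for products**, several numbers in the same field. -/
theorem final [IsAlgClosed W.K] (hE : IsStrongField E)
    (hu : ∀ i (φ : E →+* ℂ), ‖φ (α i)‖ = 1) (hind : IsIndependentAt ι α)
    (he : ∀ i, 0 < e i) (hX : ∀ i, TateIn Φ ((X i).prod (X i)) (b i))
    (hZ : IsGeneratedFrom Φ X b e α Z) :
    (∀ c, SemisimpleTateIn Φ Z c) ∧ HomIsNum W Z ∧
    ∀ U : 𝒱.Obj, HasForeignEigenvalues Φ ι (fun _ : Fin 1 => E) U →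
      (HasCycle W Z 0 → (HomIsNum W (Z.prod U) ↔ HomIsNum W U)) ∧ ∀ c,
      (TateIn Φ (Z.prod U) c ↔ ∀ i ≤ c, HasCycle W Z i → TateIn Φ U (c - i)) ∧
      (SemisimpleTateIn Φ (Z.prod U) c ↔
        ∀ i ≤ c, HasCycle W Z i → SemisimpleTateIn Φ U (c - i)) := by
  obtain ⟨h1, h2, h3⟩ := main_small (E := fun _ : Fin r => E) (pairs_of_tate hu he hX) he hZ
    (triv_same (scalar_of_strong hE) hu hind (𝓛 := {L | IsStable L ∧ NotContained E L})
      fun L hL => hL) fun _ => irreducible_of_scalar (scalar_of_strong hE)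
  exact ⟨h1, h2, fun U hU => h3 U (slopes_of_foreign hU)⟩

end Pool.Agent.NH33.Sf
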