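import Pool.Agent.NH33.Sf.Defs
import Pool.Agent.NH33.Ir.Crit3

/-!
# Scalar endomorphisms: criteria
-/

set_option autoImplicit false
set_option linter.unusedSectionVars false

namespace Pool.Agent.NH33.Sf

open NumberField Polynomial Module Pool.Agent.TH121.KT Pool.Agent.Y103.Hk Pool.Agent.Y103.Sh
  Pool.Agent.NH33.Ir

variable {E : Type} [Field E] [NumberField E] [IsCMField E]


/-- scalar endomorphisms imply irreducibility -/
theorem irreducible_of_scalar (h : HasScalarCommutant E) : OddIrreducible E := by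
  classical
  refine irreducible_of_forms fun f hf σ τ hst => ?_
  refine h (form f) (fun σ τ => ?_) (fun τ σ => ?_) (fun g σ τ => form_act f g σ τ) σ τ hst
  · change form f σ (cj τ) = - form f σ τ
    rw [form_comm, form_cj hf, form_comm]
  · change form f (cj σ) τ = - form f σ τ
    exact form_cj hf σ τ

/-- **One-dimensional fixed space.** -/
theorem scalar_of_line (hE : OddIrreducible E) (g : GQ) {w : (E →+* Qb) → ℚ} (hw : IsOddFun w)
    (hw0 : w ≠ 0) (hwg : tl g w = w)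
    (hline : ∀ f : (E →+* Qb) → ℚ, IsOddFun f → tl g f = f → ∃ c : ℚ, f = c • w) :
    HasScalarCommutant E := by
  classical
  intro B hB1 hB2 hinv' σ₁ τ₁ hst
  have hinv : ∀ (g : GQ) (σ τ : E →+* Qb), B (act g σ) (act g τ) = B σ τ := hinv'
  -- the operator
  let T : ((E →+* Qb) → ℚ) → ((E →+* Qb) → ℚ) := fun f τ => ∑ σ, f σ * B σ τ
  have hTodd : ∀ f, IsOddFun (T f) := by
    intro f τ
    change ∑ σ, f σ * B σ (cj τ) = - ∑ σ, f σ * B σ τ
    rw [← Finset.sum_neg_distrib]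
    refine Finset.sum_congr rfl fun σ _ => ?_
    have h1 : B σ (cj τ) = - B σ τ := hB1 σ τ
    rw [h1]
    ring
  have hTtl : ∀ (g : GQ) f, tl g (T f) = T (tl g f) := by
    intro g f
    funext τ
    change ∑ σ, f σ * B σ (act g τ) = ∑ σ, f (act g σ) * B σ τ
    rw [← sum_act g fun σ => f σ * B σ (act g τ)]
    refine Finset.sum_congr rfl fun σ _ => ?_
    rw [hinv]
  obtain ⟨c, hc⟩ := hline (T w) (hTodd w) (by rw [hTtl, hwg])
  -- the eigenspace
  let P : Submodule ℚ ((E →+* Qb) → ℚ) :=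
    { carrier := {f | IsOddFun f ∧ T f = c • f}
      add_mem' := by
        rintro a b ⟨ha, ha'⟩ ⟨hb, hb'⟩
        refine ⟨odd_add ha hb, ?_⟩
        rw [smul_add, ← ha', ← hb']
        funext τ
        simp only [T, Pi.add_apply, add_mul, Finset.sum_add_distrib]
      zero_mem' := ⟨odd_zero, by
        funext τ
        simp [T]⟩
      smul_mem' := by
        rintro x a ⟨ha, ha'⟩
        refine ⟨odd_smul ha x, ?_⟩
        rw [smul_comm, ← ha']
        funext τ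
        simp only [T, Pi.smul_apply, smul_eq_mul]
        rw [Finset.mul_sum]
        exact Finset.sum_congr rfl fun σ _ => by ring }
  rcases hE P (fun f hf => hf.1) (by
    rintro g f ⟨hf, hTf⟩
    refine ⟨odd_tl hf g, ?_⟩
    change T (tl g f) = c • tl g f
    rw [← hTtl, hTf]
    rfl) with h | h
  · exfalso
    have h1 : w ∈ P := ⟨hw, hc⟩
    rw [h] at h1
    exact hw0 ((Submodule.mem_bot ℚ).1 h1)
  · have h1 := congrFun (h _ (odd_dl σ₁)).2 τ₁
    have h2 : T (dl σ₁) τ₁ = 2 * B σ₁ τ₁ := by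
      change ∑ σ, dl σ₁ σ * B σ τ₁ = _
      rw [← Finset.sum_subset (Finset.subset_univ {σ₁, cj σ₁})]
      · rw [Finset.sum_pair (cj_ne σ₁).symm, dl_self]
        have h3 : dl σ₁ (cj σ₁) = -1 := by
          have := odd_dl σ₁ σ₁
          change dl σ₁ (cj σ₁) = - dl σ₁ σ₁ at this
          rw [this, dl_self]
        have h4 : B (cj σ₁) τ₁ = - B σ₁ τ₁ := hB2 τ₁ σ₁
        rw [h3, h4]
        ring
      · intro τ _ hτ
        rw [Finset.mem_insert, Finset.mem_singleton, not_or] at hτ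
        rw [dl_apply, if_neg hτ.1, if_neg hτ.2]
        simp
    have h5 : (c • dl σ₁) τ₁ = 0 := by
      rw [Pi.smul_apply, dl_apply, if_neg, if_neg]
      · simp
      · intro h6
        apply hst.2
        change σ₁ = cj τ₁
        rw [h6, cj_cj]
      · intro h6
        exact hst.1 h6.symm
    rw [h2, h5] at h1
    linarith

/-- **Changes of sign.** -/
theorem scalar_of_signs (hs : HasSignChanges E) : HasScalarCommutant E := by
  intro B hB1 hB2 hinv' σ τ hst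
  have hinv : ∀ (g : GQ) (σ τ : E →+* Qb), B (act g σ) (act g τ) = B σ τ := hinv'
  obtain ⟨h, hh, hfix⟩ := hs σ
  have hact : act h σ = cj σ := RingHom.ext hh
  have h1 : act h τ = τ := RingHom.ext (hfix τ hst.1.symm (by
    intro h2
    apply hst.2
    change σ = cj τ
    have h3 : τ = cj σ := h2
    rw [h3, cj_cj]))
  have h2 := hinv h σ τ
  rw [hact, h1] at h2
  have h3 : B (cj σ) τ = - B σ τ := hB2 τ σ
  rw [h3] at h2
  linarith

/-- a cycle -/
theorem exists_cycle {ℓ : ℕ} (hℓ : ℓ.Prime) (h2 : ℓ ≠ 2) (hE : finrank ℚ E = 2 * ℓ) :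
    ∃ (g : GQ) (S : Set (E →+* Qb)) (a : E →+* Qb), a ∈ S ∧ (∀ σ, act g σ ∈ S ↔ σ ∈ S) ∧
      (∀ σ, σ ∈ S ∨ cj σ ∈ S) ∧ (∀ σ ∈ S, cj σ ∉ S) ∧
      ∀ σ ∈ S, ∃ i : ℕ, σ = act (g ^ i) a := by
  classical
  have hX : Fintype.card (E →+* Qb) = 2 * ℓ := by rw [Embeddings.card, hE]
  obtain ⟨g, hg, a, ha⟩ := exists_order (E := E) hℓ (by rw [hX]; exact Dvd.intro_left 2 rfl)
  -- the cycle
  let s : ℕ → (E →+* Qb) := fun i => act (g ^ i) a
  have hs0 : s 0 = a := by
    change act (g ^ 0) a = a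
    rw [pow_zero, act_one]
  have hsl : ∀ i j, act (g ^ j) (s i) = s (i + j) := by
    intro i j
    change act (g ^ j) (act (g ^ i) a) = act (g ^ (i + j)) a
    rw [← act_mul, ← pow_add, add_comm]
  have hper : ∀ i, s (i + ℓ) = s i := by
    intro i
    rw [← hsl, hg]
  have hmin : Function.minimalPeriod (act g) a = ℓ := by
    have h3 : Function.IsPeriodicPt (act g) ℓ a := by
      change (act g)^[ℓ] a = a
      rw [← act_pow, hg]
    have h4 := h3.minimalPeriod_dvd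
    rcases (Nat.dvd_prime hℓ).1 h4 with h5 | h5
    · exfalso
      apply ha
      exact Function.minimalPeriod_eq_one_iff_isFixedPt.1 h5
    · exact h5
  have hinj : ∀ i < ℓ, ∀ j < ℓ, s i = s j → i = j := by
    intro i hi j hj hij
    have h3 : (act g)^[i] a = (act g)^[j] a := by rw [← act_pow, ← act_pow]; exact hij
    exact Function.iterate_injOn_Iio_minimalPeriod (by rw [hmin]; exact hi) (by rw [hmin]; exact hj)
      h3
  have hmod : ∀ i, s i = s (i % ℓ) := by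
    intro i
    have h3 : ∀ q r, s (r + q * ℓ) = s r := by
      intro q r
      induction q with
      | zero => rw [zero_mul, add_zero]
      | succ q ih => rw [Nat.succ_mul, ← add_assoc, hper, ih]
    conv_lhs => rw [← Nat.mod_add_div i ℓ, mul_comm]
    rw [h3]
  have hdis' : ∀ i j, s i ≠ cj (s j) := by
    intro i j hij
    -- then `cj a = s t` for some `t`
    obtain ⟨t, ht⟩ : ∃ t, s t = cj a := by
      refine ⟨i + (ℓ - j % ℓ), ?_⟩
      rw [← hsl, hij, hmod j, act_cj, hsl]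
      congr 1
      rw [show j % ℓ + (ℓ - j % ℓ) = 0 + ℓ by have := Nat.mod_lt j hℓ.pos; omega, hper, hs0]
    have h3 : s (t + t) = s 0 := by
      rw [← hsl, ht, act_cj]
      change cj (s t) = _
      rw [ht, cj_cj, hs0]
    rw [hmod (t + t)] at h3
    have h4 := hinj _ (Nat.mod_lt _ hℓ.pos) 0 hℓ.pos h3
    have h5 : ℓ ∣ t + t := Nat.dvd_of_mod_eq_zero h4
    rw [← two_mul] at h5
    have h6 : ℓ ∣ t := by
      rcases (Nat.Prime.dvd_mul hℓ).1 h5 with h7 | h7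
      · exact absurd ((Nat.prime_dvd_prime_iff_eq hℓ Nat.prime_two).1 h7) h2
      · exact h7
    have h7 : s t = s 0 := by
      rw [hmod t, Nat.mod_eq_zero_of_dvd h6]
    rw [h7, hs0] at ht
    exact cj_ne a ht.symm
  let T : Fin ℓ ⊕ Fin ℓ → (E →+* Qb) := Sum.elim (fun i => s i) (fun i => cj (s i))
  have hT : Function.Bijective T := by
    rw [Fintype.bijective_iff_injective_and_card]
    refine ⟨?_, by simp only [Fintype.card_sum, Fintype.card_fin]; rw [hX]; ring⟩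
    rintro (i | i) (j | j) hij
    · exact congrArg Sum.inl (Fin.ext (hinj i i.2 j j.2 hij))
    · exact absurd hij (hdis' i j)
    · exact absurd hij.symm (hdis' j i)
    · refine congrArg Sum.inr (Fin.ext (hinj i i.2 j j.2 ?_))
      have h3 := congrArg cj hij
      change cj (cj (s i)) = cj (cj (s j)) at h3
      rwa [cj_cj, cj_cj] at h3
  refine ⟨g, Set.range s, a, ⟨0, hs0⟩, fun σ => ?_, fun σ => ?_, ?_, ?_⟩
  · constructor
    · rintro ⟨i, hi⟩
      refine ⟨i + (ℓ - 1), ?_⟩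
      rw [← hsl, hi, ← act_mul, ← pow_succ, Nat.sub_add_cancel hℓ.one_le, hg]
    · rintro ⟨i, rfl⟩
      exact ⟨i + 1, by rw [← hsl, pow_one]⟩
  · obtain ⟨x, rfl⟩ := hT.2 σ
    rcases x with i | i
    · exact Or.inl ⟨i, rfl⟩
    · right
      change cj (cj (s i)) ∈ Set.range s
      rw [cj_cj]
      exact ⟨i, rfl⟩
  · rintro _ ⟨i, rfl⟩ ⟨j, hj⟩
    exact hdis' j i hj
  · rintro _ ⟨i, rfl⟩
    exact ⟨i, rfl⟩

/-- **Odd prime degree.** -/
theorem scalar_of_prime {ℓ : ℕ} (hℓ : ℓ.Prime) (h2 : ℓ ≠ 2) (hE : finrank ℚ E = 2 * ℓ)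
    (hno : NoImaginaryQuadratic E) : HasScalarCommutant E := by
  classical
  obtain ⟨g, S, a, ha, hgS, hcov, hdis, hcyc⟩ := exists_cycle hℓ h2 hE
  let w : (E →+* Qb) → ℚ := fun σ => if σ ∈ S then 1 else -1
  have hwS : ∀ σ ∈ S, w σ = 1 := fun σ hσ => if_pos hσ
  have hwS' : ∀ σ ∉ S, w σ = -1 := fun σ hσ => if_neg hσ
  have hw : IsOddFun w := by
    intro σ
    change w (cj σ) = - w σ
    by_cases h : σ ∈ S
    · rw [hwS σ h, hwS' _ (hdis σ h)]
    · rw [hwS' σ h, hwS _ ((hcov σ).resolve_left h), neg_neg]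
  refine scalar_of_line (irreducible_odd_prime hℓ h2 hE hno) g hw ?_ ?_ ?_
  · intro h
    have h1 := congrFun h a
    rw [hwS a ha] at h1
    exact one_ne_zero h1
  · funext σ
    change w (act g σ) = w σ
    by_cases h : σ ∈ S
    · rw [hwS σ h, hwS _ ((hgS σ).2 h)]
    · rw [hwS' σ h, hwS' _ fun h' => h ((hgS σ).1 h')]
  · intro f hf hfg
    have h1 : ∀ i, f (act (g ^ i) a) = f a := by
      intro i
      induction i with
      | zero => rw [pow_zero, act_one]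
      | succ i ih =>
        rw [pow_succ', act_mul, ← ih]
        exact congrFun hfg _
    have h2' : ∀ σ ∈ S, f σ = f a := by
      intro σ hσ
      obtain ⟨i, rfl⟩ := hcyc σ hσ
      exact h1 i
    refine ⟨f a, ?_⟩
    funext σ
    rw [Pi.smul_apply, smul_eq_mul]
    by_cases h : σ ∈ S
    · rw [hwS σ h, h2' σ h, mul_one]
    · have h3 := (hcov σ).resolve_left h
      have h4 : f (cj σ) = - f σ := hf σ
      rw [hwS' σ h, ← h2' _ h3, h4]
      ring

/-- **Triple transitivity.** -/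
theorem scalar_of_triple {d : ℕ} (hE : finrank ℚ E = 2 * d) (hd : 3 ≤ d)
    (htt : IsTriplyTransitive E) (hno : NoImaginaryQuadratic E) : HasScalarCommutant E := by
  classical
  intro B hB1 hB2 hinv' σ₁ τ₁ hst
  have hinv : ∀ (g : GQ) (σ τ : E →+* Qb), B (act g σ) (act g τ) = B σ τ := hinv'
  have hc1 : ∀ σ τ, B (cj σ) τ = - B σ τ := fun σ τ => hB2 τ σ
  have hc2 : ∀ σ τ, B σ (cj τ) = - B σ τ := fun σ τ => hB1 σ τ
  -- the symmetric part
  have hsymz : ∀ σ τ : E →+* Qb, Apart σ τ → B σ τ + B τ σ = 0 := by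
    intro σ τ h
    refine sym_zero hE hd htt hno (F := fun σ τ => B σ τ + B τ σ) (fun σ τ => add_comm _ _)
      (fun σ τ => ?_) (fun g σ τ => ?_) h
    · change B (cj σ) τ + B τ (cj σ) = - (B σ τ + B τ σ)
      rw [hc1, hc2]
      ring
    · change B (act g σ) (act g τ) + B (act g τ) (act g σ) = _
      rw [hinv, hinv]
  obtain ⟨ρ₁, h₁, h₂⟩ := exists_third hE hd σ₁ τ₁
  -- the triple products
  let t : (E →+* Qb) → (E →+* Qb) → (E →+* Qb) → ℚ := fun σ τ ρ =>
    B σ τ * B τ ρ * B ρ σ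
  have ht1 : ∀ σ τ ρ, t (cj σ) τ ρ = t σ τ ρ := by
    intro σ τ ρ
    simp only [t]
    rw [hc1, hc2]
    ring
  have ht2 : ∀ σ τ ρ, t σ (cj τ) ρ = t σ τ ρ := by
    intro σ τ ρ
    simp only [t]
    rw [hc1, hc2]
    ring
  have ht3 : ∀ σ τ ρ, t σ τ (cj ρ) = t σ τ ρ := by
    intro σ τ ρ
    simp only [t]
    rw [hc1, hc2]
    ring
  have h₁' : Apart τ₁ σ₁ := Apart.symm' hst
  obtain ⟨g, h4, h5, h6⟩ := htt σ₁ τ₁ ρ₁ τ₁ σ₁ ρ₁ hst h₁ h₂ h₁' h₂ h₁
  have h7 : t (act g σ₁) (act g τ₁) (act g ρ₁) = t σ₁ τ₁ ρ₁ := by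
    simp only [t]
    rw [hinv, hinv, hinv]
  have h8 : t (act g σ₁) (act g τ₁) (act g ρ₁) = t τ₁ σ₁ ρ₁ := by
    have h4' : act g σ₁ = τ₁ ∨ act g σ₁ = cj τ₁ := h4
    have h5' : act g τ₁ = σ₁ ∨ act g τ₁ = cj σ₁ := h5
    have h6' : act g ρ₁ = ρ₁ ∨ act g ρ₁ = cj ρ₁ := h6
    rcases h4' with h | h <;> rcases h5' with h' | h' <;> rcases h6' with h'' | h'' <;>
      rw [h, h', h''] <;> simp only [ht1, ht2, ht3]
  have h9 : t τ₁ σ₁ ρ₁ = - t σ₁ τ₁ ρ₁ := by
    simp only [t]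
    have e1 := hsymz σ₁ τ₁ hst
    have e2 := hsymz σ₁ ρ₁ h₁
    have e3 := hsymz τ₁ ρ₁ h₂
    have f1 : B τ₁ σ₁ = - B σ₁ τ₁ := by linarith
    have f2 : B σ₁ ρ₁ = - B ρ₁ σ₁ := by linarith
    have f3 : B ρ₁ τ₁ = - B τ₁ ρ₁ := by linarith
    rw [f1, f2, f3]
    ring
  have h10 : t σ₁ τ₁ ρ₁ = 0 := by linarith
  -- the absolute value is constant
  have habs : ∀ σ τ σ' τ' : E →+* Qb, Apart σ τ → Apart σ' τ' → |B σ τ| = |B σ' τ'| := by
    intro σ τ σ' τ' h h'
    obtain ⟨ρ, h1, h2⟩ := exists_third hE hd σ τ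
    obtain ⟨ρ', h1', h2'⟩ := exists_third hE hd σ' τ'
    obtain ⟨g, h3, h4, -⟩ := htt σ τ ρ σ' τ' ρ' h h1 h2 h' h1' h2'
    have h5 := hinv g σ τ
    rw [← h5]
    have h3' : act g σ = σ' ∨ act g σ = cj σ' := h3
    have h4' : act g τ = τ' ∨ act g τ = cj τ' := h4
    rcases h3' with h6 | h6 <;> rcases h4' with h7 | h7 <;> rw [h6, h7]
    · rw [hc2, abs_neg]
    · rw [hc1, abs_neg]
    · rw [hc1, hc2, neg_neg]
  have h11 : |B σ₁ τ₁| ^ 3 = 0 := by
    have h12 : |t σ₁ τ₁ ρ₁| = |B σ₁ τ₁| ^ 3 := by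
      simp only [t]
      rw [abs_mul, abs_mul, habs τ₁ ρ₁ σ₁ τ₁ h₂ hst, habs ρ₁ σ₁ σ₁ τ₁ (Apart.symm' h₁) hst]
      ring
    rw [← h12, h10, abs_zero]
  exact abs_eq_zero.1 (pow_eq_zero_iff (by norm_num)|>.1 h11)

end Pool.Agent.NH33.Sf
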