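import Pool.Agent.NH33.Sf.Comm
import Pool.Agent.NH33.Ir.Bal

/-!
# Relations between the conjugates of several numbers in the same field
-/

set_option autoImplicit false
set_option linter.unusedSectionVars false

namespace Pool.Agent.NH33.Sf

open NumberField Polynomial Module Pool.Agent.TH121.KT Pool.Agent.Y103.Hk Pool.Agent.Y103.Sh
  Pool.Agent.NH33.Ir

variable {E : Type} [Field E] [NumberField E] [IsCMField E] {p : ℕ} [Fact p.Prime]
  {ι : Qb →+* PadicAlgCl p} {r : ℕ} {α : Fin r → E}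

/-- **Several numbers in the same field.** -/
theorem zero_all (hE : HasScalarCommutant E) (hu : ∀ i (φ : E →+* ℂ), ‖φ (α i)‖ = 1)
    (hind : IsIndependentAt ι α) {f : Fin r → (E →+* Qb) → ℚ} (hf : ∀ i, IsOddFun (f i))
    (hrel : ∀ g, ∑ i, Lg ι (α i) (f i) g = 0) (i : Fin r) : f i = 0 := by
  classical
  by_contra hi₀
  revert hi₀
  generalize i = i₀
  intro hi₀
  obtain ⟨σ₀⟩ : Nonempty (E →+* Qb) := ⟨(IsAlgClosed.lift : E →ₐ[ℚ] Qb).toRingHom⟩
  let B : Fin r → (E →+* Qb) → (E →+* Qb) → ℚ := fun i σ τ =>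
    ∑ x : (rho E).range, f i (x.1 σ) * f i₀ (x.1 τ)
  have hval : ∀ (x : (rho E).range), ∃ g : GQ, ∀ σ, x.1 σ = act g σ := by
    rintro ⟨_, g, rfl⟩
    exact ⟨g, fun σ => rfl⟩
  have hB1 : ∀ i σ, IsOddFun (B i σ) := by
    intro i σ τ
    change ∑ x : (rho E).range, f i (x.1 σ) * f i₀ (x.1 (cj τ)) =
      - ∑ x : (rho E).range, f i (x.1 σ) * f i₀ (x.1 τ)
    rw [← Finset.sum_neg_distrib]
    refine Finset.sum_congr rfl fun x _ => ?_
    obtain ⟨g, hg⟩ := hval x
    rw [hg, hg, hg, act_cj]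
    have h1 : f i₀ (cj (act g τ)) = - f i₀ (act g τ) := hf i₀ _
    rw [h1]
    ring
  have hB2 : ∀ i τ, IsOddFun fun σ => B i σ τ := by
    intro i τ σ
    change ∑ x : (rho E).range, f i (x.1 (cj σ)) * f i₀ (x.1 τ) =
      - ∑ x : (rho E).range, f i (x.1 σ) * f i₀ (x.1 τ)
    rw [← Finset.sum_neg_distrib]
    refine Finset.sum_congr rfl fun x _ => ?_
    obtain ⟨g, hg⟩ := hval x
    rw [hg, hg, hg, act_cj]
    have h1 : f i (cj (act g σ)) = - f i (act g σ) := hf i _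
    rw [h1]
    ring
  have hB3 : ∀ i (g : GQ) (σ τ : E →+* Qb), B i (act g σ) (act g τ) = B i σ τ := by
    intro i g σ τ
    refine Fintype.sum_equiv (Equiv.mulRight (⟨rho E g, g, rfl⟩ : (rho E).range)) _ _ fun x => ?_
    rfl
  have hB0 : ∀ i σ, B i σ σ₀ = B i σ₀ σ₀ * dl σ₀ σ := by
    intro i σ
    rw [dl_apply]
    by_cases h2 : σ = σ₀
    · subst h2
      rw [if_pos rfl, if_neg (cj_ne σ).symm]
      ring
    · by_cases h3 : σ = cj σ₀
      · subst h3
        rw [if_neg h2, if_pos rfl]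
        have h4 : B i (cj σ₀) σ₀ = - B i σ₀ σ₀ := hB2 i σ₀ σ₀
        rw [h4]
        ring
      · rw [if_neg h2, if_neg h3, hE (B i) (hB1 i) (hB2 i) (hB3 i) σ σ₀ ⟨h2, h3⟩]
        ring
  have hpos : 0 < B i₀ σ₀ σ₀ := by
    obtain ⟨τ, hτ⟩ : ∃ τ, f i₀ τ ≠ 0 := by
      by_contra hcon
      push Not at hcon
      exact hi₀ (funext hcon)
    obtain ⟨g, hg⟩ := exists_act_eq σ₀ τ
    refine Finset.sum_pos' (fun x _ => mul_self_nonneg _)
      ⟨⟨rho E g, g, rfl⟩, Finset.mem_univ _, ?_⟩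
    change 0 < f i₀ (act g σ₀) * f i₀ (act g σ₀)
    rw [hg]
    exact mul_self_pos.2 hτ
  -- the relation
  have hrel2 : ∀ g : GQ, ∑ i, ∑ σ : E →+* Qb, (B i σ σ₀ : ℝ) * Real.log ‖ι (g (σ (α i)))‖ = 0 := by
    intro g
    have h1 : ∀ i, ∑ σ : E →+* Qb, (B i σ σ₀ : ℝ) * Real.log ‖ι (g (σ (α i)))‖ =
        ∑ x : (rho E).range, (f i₀ (x.1 σ₀) : ℝ) *
          ∑ σ : E →+* Qb, (f i (x.1 σ) : ℝ) * Real.log ‖ι (g (σ (α i)))‖ := by
      intro i
      simp only [Finset.mul_sum]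
      rw [Finset.sum_comm]
      refine Finset.sum_congr rfl fun σ _ => ?_
      simp only [B]
      push_cast
      rw [Finset.sum_mul]
      refine Finset.sum_congr rfl fun x _ => ?_
      ring
    rw [Finset.sum_congr rfl fun i _ => h1 i, Finset.sum_comm]
    refine Finset.sum_eq_zero fun x _ => ?_
    rw [← Finset.mul_sum]
    obtain ⟨k, hk⟩ := hval x
    have h2 : ∑ i, ∑ σ : E →+* Qb, (f i (x.1 σ) : ℝ) * Real.log ‖ι (g (σ (α i)))‖ =
        ∑ i, Lg ι (α i) (f i) (g * k⁻¹) := by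
      refine Finset.sum_congr rfl fun i _ => ?_
      rw [← Lg_tl, inv_inv]
      unfold Lg
      refine Finset.sum_congr rfl fun σ _ => ?_
      rw [hk]
      rfl
    rw [h2, hrel, mul_zero]
  have hrel3 : ∀ σ : E →+* Qb, ∑ i, (B i σ₀ σ₀ : ℝ) * Real.log ‖ι (σ (α i))‖ = 0 := by
    intro σ
    obtain ⟨g, hg⟩ := exists_act_eq σ₀ σ
    have h1 := hrel2 g
    have h2 : ∀ i, ∑ σ : E →+* Qb, (B i σ σ₀ : ℝ) * Real.log ‖ι (g (σ (α i)))‖ =
        2 * ((B i σ₀ σ₀ : ℝ) * Real.log ‖ι (σ (α i))‖) := by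
      intro i
      rw [← Finset.sum_subset (Finset.subset_univ {σ₀, cj σ₀})]
      · rw [Finset.sum_pair (cj_ne σ₀).symm]
        have h3 : B i (cj σ₀) σ₀ = - B i σ₀ σ₀ := hB2 i σ₀ σ₀
        have h4 : g (σ₀ (α i)) = σ (α i) := RingHom.congr_fun hg (α i)
        have h5 : g (cj σ₀ (α i)) = cj σ (α i) := by
          have h6 : act g (cj σ₀) = cj σ := by rw [act_cj, hg]
          exact RingHom.congr_fun h6 (α i)
        rw [h3, h4, h5, cj_norm (hu i), Real.log_inv]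
        push_cast
        ring
      · intro τ _ hτ
        rw [Finset.mem_insert, Finset.mem_singleton, not_or] at hτ
        rw [hB0, dl_apply, if_neg hτ.1, if_neg hτ.2]
        simp
    rw [Finset.sum_congr rfl fun i _ => h2 i, ← Finset.mul_sum] at h1
    exact (mul_eq_zero.1 h1).resolve_left two_ne_zero
  -- integral exponents
  obtain ⟨N, hN⟩ := IsLocalization.exist_integer_multiples_of_finset (nonZeroDivisors ℤ)
    (Finset.univ.image fun i => B i σ₀ σ₀)
  have hN0 : ((N : ℤ) : ℚ) ≠ 0 := by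
    have := nonZeroDivisors.ne_zero N.2
    exact_mod_cast this
  have hex : ∀ i, ∃ m : ℤ, (m : ℚ) = (N : ℤ) * B i σ₀ σ₀ := by
    intro i
    obtain ⟨m, hm⟩ := hN (B i σ₀ σ₀) (Finset.mem_image_of_mem _ (Finset.mem_univ i))
    refine ⟨m, ?_⟩
    rw [Algebra.smul_def] at hm
    simpa using hm
  choose m hm using hex
  have hzero : m = 0 := by
    refine hind m fun σ => ?_
    have hne : ∀ i, ‖ι (σ (α i))‖ ≠ 0 := fun i => (norm_pos' (hu i) σ).ne'
    have h1 : Real.log ‖ι (σ (∏ i, α i ^ m i))‖ = 0 := by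
      rw [map_prod, map_prod, norm_prod, Real.log_prod]
      · have h2 : ∀ i, Real.log ‖ι (σ (α i ^ m i))‖ =
            ((N : ℤ) : ℝ) * ((B i σ₀ σ₀ : ℝ) * Real.log ‖ι (σ (α i))‖) := by
          intro i
          rw [map_zpow₀, map_zpow₀, norm_zpow, Real.log_zpow]
          have h3 : (m i : ℝ) = ((N : ℤ) : ℝ) * (B i σ₀ σ₀ : ℝ) := by
            have := congrArg (fun x : ℚ => (x : ℝ)) (hm i)
            push_cast at this
            exact this
          rw [h3, mul_assoc]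
        rw [Finset.sum_congr rfl fun i _ => h2 i, ← Finset.mul_sum, hrel3, mul_zero]
      · intro i _
        rw [map_zpow₀, map_zpow₀, norm_zpow]
        exact zpow_ne_zero _ (hne i)
    have h4 : 0 < ‖ι (σ (∏ i, α i ^ m i))‖ := by
      rw [norm_pos_iff, ne_eq, map_eq_zero, map_eq_zero, Finset.prod_eq_zero_iff]
      rintro ⟨i, -, hi⟩
      have h5 : α i = 0 := by
        by_contra h6
        exact zpow_ne_zero _ h6 hi
      apply hne i
      rw [h5, map_zero, map_zero, norm_zero]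
    exact Real.eq_one_of_pos_of_log_eq_zero h4 h1
  have h1 := hm i₀
  rw [congrFun hzero i₀, Pi.zero_apply, Int.cast_zero] at h1
  rcases mul_eq_zero.1 h1.symm with h2 | h2
  · exact hN0 h2
  · exact hpos.ne' h2

theorem zero_list (hE : HasScalarCommutant E) (hu : ∀ i (φ : E →+* ℂ), ‖φ (α i)‖ = 1)
    (hind : IsIndependentAt ι α) : ∀ (S : List (IntermediateField ℚ Qb))
    (f : Fin r → (E →+* Qb) → ℚ), (∀ L ∈ S, IsStable L ∧ NoInv E L) → (∀ i, IsOddFun (f i)) →
    SumOf S (fun g => ∑ i, Lg ι (α i) (f i) g) → ∀ i, f i = 0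
  | [], f, _, hf, hrel => zero_all hE hu hind hf hrel
  | L :: S, f, hS, hf, ⟨u, w', hu', hw', huw⟩ => fun i => by
    obtain ⟨hL, hno⟩ := hS L List.mem_cons_self
    refine hno (f i) (hf i) fun h hh σ => ?_
    have hdiff : (∀ j, IsOddFun (tl h⁻¹⁻¹ (f j) - f j)) ∧ ∀ g,
        ∑ j, Lg ι (α j) (tl h⁻¹⁻¹ (f j) - f j) g =
          (fun g => ∑ i, Lg ι (α i) (f i) g) (g * h⁻¹) -
            (fun g => ∑ i, Lg ι (α i) (f i) g) g := by
      refine ⟨fun j => odd_sub (odd_tl (hf j) _) (hf j), fun g => ?_⟩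
      rw [← Finset.sum_sub_distrib]
      refine Finset.sum_congr rfl fun j _ => ?_
      rw [Lg_sub, Lg_tl]
    have h1 := zero_list hE hu hind S (fun j => tl h⁻¹⁻¹ (f j) - f j)
      (fun L' hL' => hS L' (List.mem_cons_of_mem _ hL')) hdiff.1 (by
        refine SumOf.congr (SumOf.diff h⁻¹ hw') fun g => ?_
        refine (hdiff.2 g).trans ?_
        rw [huw, huw, LeftInv.right hL hu' (inv_fix hh)]
        ring) i
    have h2 := congrFun h1 σ
    change f i (act h⁻¹⁻¹ σ) - f i σ = 0 at h2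
    rw [inv_inv] at h2
    linarith

/-- **The relations are trivial.** -/
theorem triv_same (hE : HasScalarCommutant E) (hu : ∀ i (φ : E →+* ℂ), ‖φ (α i)‖ = 1)
    (hind : IsIndependentAt ι α) {𝓛 : Set (IntermediateField ℚ Qb)}
    (h𝓛 : ∀ L ∈ 𝓛, IsStable L ∧ NotContained E L) :
    Triv (E := fun _ : Fin r => E) ι α 𝓛 where
  unitary := hu
  zero S f hS hf hSum := zero_list hE hu hind S f (by
    intro L hL
    rcases hS L hL with rfl | h
    · exact ⟨bot_stable, noInv_bot E⟩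
    · exact ⟨(h𝓛 L h).1, noInv_of_irreducible (irreducible_of_scalar hE) (h𝓛 L h).1
        (h𝓛 L h).2⟩) hf hSum

end Pool.Agent.NH33.Sf
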